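import Pool.Agent.X886.INV.Main

/-!
# Normal numbers of a basic sequence of positive entropy which are all uniformly normal

There is a dynamically generated non-deterministic basic sequence `Q` for which every `Q`-normal
number is uniformly `Q`-normal: the set `(N(Q) ∩ DN(Q)) \ UN(Q)` is empty, its Hausdorff dimension is
`0`. The bases of `Q` are `2, 32, 64, 128`; `Q` has positive entropy but can be recovered from its own
random digits (markers for the position and parity checks at all scales for the information).
-/

namespace Pool.Agent.Results.MP_2a076f_an.NormalImpliesUniformlyNormal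

open Pool.Agent.X886.INV

/-- Some dynamically generated non-deterministic basic sequence `Q` has
`(N(Q) ∩ DN(Q)) \ UN(Q) = ∅`, so that this set has Hausdorff dimension `0`. -/
theorem result : ∃ Q : ℕ → ℕ, IsBasic Q ∧ NonDet Q ∧
    (NormalSet Q ∩ DistNormalSet Q) \ UniformNormalSet Q = ∅ ∧
    dimH ((NormalSet Q ∩ DistNormalSet Q) \ UniformNormalSet Q) = 0 := by
  obtain ⟨Q, h1, h2, -, h4⟩ := main
  have h : (NormalSet Q ∩ DistNormalSet Q) \ UniformNormalSet Q = ∅ :=
    Set.diff_eq_empty.2 (Set.inter_subset_left.trans h4)
  exact ⟨Q, h1, h2, h, by rw [h, dimH_empty]⟩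

end Pool.Agent.Results.MP_2a076f_an.NormalImpliesUniformlyNormal
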